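import Pool.Agent.MP984e59.Final
import Pool.Agent.MP984e59.Pairs
import Pool.Agent.RPoset.Stab

set_option autoImplicit false

open Cardinal

namespace Pool.Agent.Results.MP_984e59_al.StrongSmallIndex

/-- The pointwise stabiliser of a finite set `F` in the automorphism group of a poset. -/
def pointStab {Ω : Type} [PartialOrder Ω] (F : Finset Ω) : Subgroup (Ω ≃o Ω) where
  carrier := {g | ∀ x ∈ F, g x = x}
  mul_mem' := by
    intro a b ha hb x hx
    show a (b x) = x
    rw [hb x hx, ha x hx]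
  one_mem' := fun x _ => rfl
  inv_mem' := by
    intro a ha x hx
    show a.symm x = x
    rw [OrderIso.symm_apply_eq, ha x hx]

/-- The setwise stabiliser of a finite set `F` in the automorphism group of a poset. -/
def setStab {Ω : Type} [PartialOrder Ω] (F : Finset Ω) : Subgroup (Ω ≃o Ω) where
  carrier := {g | ∀ x : Ω, g x ∈ F ↔ x ∈ F}
  mul_mem' := by
    intro a b ha hb x
    show a (b x) ∈ F ↔ x ∈ F
    rw [ha, hb]
  one_mem' := fun x => Iff.rfl
  inv_mem' := by
    intro a ha x
    show a.symm x ∈ F ↔ x ∈ F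
    rw [← ha (a.symm x), OrderIso.apply_symm_apply]

section aux

open Pool.Agent.RPoset

variable {Ω : Type} [PartialOrder Ω]

/-- Removing a point from the base of an open subgroup which is also open over a finite set
avoiding this point. -/
theorem step (hΩ : IsGen Ω) (H : Subgroup (Ω ≃o Ω)) (D : Set Ω) (hD : D.Finite) (f : Ω)
    (hf : f ∉ D) (hF : ∀ g : Ω ≃o Ω, (∀ x ∈ D, g x = x) → g f = f → g ∈ H)
    (E : Set Ω) (hEf : E.Finite) (hfE : f ∉ E) (hDE : D ⊆ E)
    (hEH : ∀ g : Ω ≃o Ω, (∀ x ∈ E, g x = x) → g ∈ H) :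
    ∀ g : Ω ≃o Ω, (∀ x ∈ D, g x = x) → g ∈ H := by
  classical
  obtain ⟨k, hk1, hk2⟩ := hΩ.exists_incomp E hEf f hfE f
  have hkH : k ∈ H := hEH k hk1
  obtain ⟨hkf1, hkf2⟩ := hk2 f (Or.inl rfl) ⟨1, fun _ _ => rfl, rfl⟩
  have key : ∀ g : Ω ≃o Ω, (∀ x ∈ D, g x = x) → ¬ g f ≤ f → ¬ f ≤ g f →
      ∃ h ∈ H, (∀ x ∈ D, h x = x) ∧ h f = g f := by
    intro g hg hgf1 hgf2
    have hkD : ∀ x ∈ D, k x = x := fun x hx => hk1 x (hDE hx)
    obtain ⟨u, hu⟩ := hΩ.exists_aut (ι := Option (Option D)) Set.univ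
      (by
        have : Finite D := hD
        exact Set.finite_univ)
      (fun o => match o with
        | none => f
        | some none => k f
        | some (some d) => d.1)
      (fun o => match o with
        | none => f
        | some none => g f
        | some (some d) => d.1) (by
        rintro (_ | _ | ⟨a, ha⟩) _ (_ | _ | ⟨b, hb⟩) _
        · simp
        · simp [hkf2, hgf2]
        · simp
        · simp [hkf1, hgf1]
        · simp
        · show k f ≤ b ↔ g f ≤ b
          rw [← hkD b hb, k.le_iff_le, hkD b hb]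
          conv_rhs => rw [← hg b hb, g.le_iff_le]
        · simp
        · show a ≤ k f ↔ a ≤ g f
          rw [← hkD a ha, k.le_iff_le, hkD a ha]
          conv_rhs => rw [← hg a ha, g.le_iff_le]
        · simp)
    have hu1 : u f = f := hu none trivial
    have hu2 : u (k f) = g f := hu (some none) trivial
    have hu3 : ∀ d ∈ D, u d = d := fun d hd => hu (some (some ⟨d, hd⟩)) trivial
    refine ⟨u * k, H.mul_mem (hF u hu3 hu1) hkH, ?_, hu2⟩
    intro x hx
    show u (k x) = x
    rw [hkD x hx, hu3 x hx]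
  intro g hg
  obtain ⟨k', hk'1, hk'2⟩ := hΩ.exists_incomp D hD f hf (g f)
  obtain ⟨h1, h2⟩ := hk'2 f (Or.inl rfl) ⟨1, fun _ _ => rfl, rfl⟩
  obtain ⟨h3, h4⟩ := hk'2 (g f) (Or.inr rfl) ⟨g, hg, rfl⟩
  obtain ⟨a, haH, haD, haf⟩ := key k' hk'1 h1 h2
  have hainv : ∀ x ∈ D, a⁻¹ x = x := by
    intro x hx
    have : a⁻¹ (a x) = x := a.symm_apply_apply x
    rwa [haD x hx] at this
  obtain ⟨b, hbH, hbD, hbf⟩ := key (a⁻¹ * g) (by
      intro x hx
      show a⁻¹ (g x) = x
      rw [hg x hx, hainv x hx]) (by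
      intro h5
      apply h4
      have h6 : a (a⁻¹ (g f)) ≤ a f := a.le_iff_le.2 h5
      have h7 : a (a⁻¹ (g f)) = g f := a.apply_symm_apply _
      rwa [h7, haf] at h6) (by
      intro h5
      apply h3
      have h6 : a f ≤ a (a⁻¹ (g f)) := a.le_iff_le.2 h5
      have h7 : a (a⁻¹ (g f)) = g f := a.apply_symm_apply _
      rwa [h7, haf] at h6)
  have h5 : b⁻¹ * (a⁻¹ * g) ∈ H := by
    apply hF
    · intro x hx
      show b⁻¹ (a⁻¹ (g x)) = x
      rw [hg x hx, hainv x hx]
      have : b⁻¹ (b x) = x := b.symm_apply_apply x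
      rwa [hbD x hx] at this
    · show b⁻¹ (a⁻¹ (g f)) = f
      have h6 : b f = a⁻¹ (g f) := hbf
      rw [← h6]
      exact b.symm_apply_apply f
  have h6 : g = a * (b * (b⁻¹ * (a⁻¹ * g))) := by group
  rw [h6]
  exact H.mul_mem haH (H.mul_mem hbH h5)

/-- The points outside a finite set are moved out of every finite set by its pointwise
stabiliser. -/
theorem exists_move (hΩ : IsGen Ω) (F X : Finset Ω) (f : Ω) (hf : f ∉ F) :
    ∃ k : Ω ≃o Ω, (∀ x ∈ F, k x = x) ∧ k f ∉ X := by
  obtain ⟨k, hk1, hk2⟩ := hΩ.exists_free_aut (F : Set Ω) F.finite_toSet f (X : Set Ω)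
    X.finite_toSet
  refine ⟨k, fun x hx => hk1 x (by simpa using hx), fun hkX => ?_⟩
  obtain ⟨h1, h2⟩ := hk2 (k f) (by simpa using hkX)
  obtain ⟨b, hb, hb1, hb2⟩ := h1 le_rfl
  obtain ⟨c, hc, hc1, hc2⟩ := h2 le_rfl
  have h3 : f = b := le_antisymm hb1 (hb2.trans (hc1.trans hc2))
  exact hf (by rw [h3]; simpa using hb)

/-- A group between the two stabilisers of a finite set determines this set. -/
theorem unique_base (hΩ : IsGen Ω) (H : Subgroup (Ω ≃o Ω)) (F F' : Finset Ω)
    (h1 : pointStab F ≤ H) (h2 : H ≤ setStab F') : F' ⊆ F := by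
  intro f hf
  by_contra hfF
  obtain ⟨k, hk1, hk2⟩ := exists_move hΩ F F' f hfF
  have h3 : k ∈ setStab F' := h2 (h1 (show k ∈ pointStab F from hk1))
  exact hk2 ((h3 f).2 hf)

theorem exists_base (hΩ : IsGen Ω) (H : Subgroup (Ω ≃o Ω))
    (hex : ∃ F : Finset Ω, pointStab F ≤ H) :
    ∃ F : Finset Ω, pointStab F ≤ H ∧ H ≤ setStab F := by
  classical
  obtain ⟨F, hF, hmin⟩ : ∃ F : Finset Ω, pointStab F ≤ H ∧
      ∀ F' : Finset Ω, pointStab F' ≤ H → F.card ≤ F'.card := by
    have hP : ∃ n : ℕ, ∃ F : Finset Ω, pointStab F ≤ H ∧ F.card = n := by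
      obtain ⟨F, hF⟩ := hex
      exact ⟨_, F, hF, rfl⟩
    obtain ⟨F, hF, hc⟩ := Nat.find_spec hP
    refine ⟨F, hF, fun F' hF' => ?_⟩
    rw [hc]
    exact Nat.find_min' hP ⟨F', hF', rfl⟩
  refine ⟨F, hF, ?_⟩
  have hsub : ∀ h ∈ H, ∀ f ∈ F, h f ∈ F := by
    intro h hh f' hf'
    by_contra hcon
    -- the set `h F` is not contained in `F`, hence `F` is not contained in `h F`
    have hcard : (F.image h).card = F.card := Finset.card_image_of_injective F h.injective
    have hne : ¬ F ⊆ F.image h := by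
      intro hs
      have heq : F = F.image h := Finset.eq_of_subset_of_card_le hs hcard.le
      apply hcon
      rw [heq]
      exact Finset.mem_image_of_mem h hf'
    obtain ⟨f, hf, hfn⟩ := Finset.not_subset.1 hne
    have hstep := step hΩ H ((F.erase f : Finset Ω) : Set Ω) (F.erase f).finite_toSet f
      (by simp) (by
        intro g hg hgf
        apply hF
        show ∀ x ∈ F, g x = x
        intro x hx
        by_cases hxf : x = f
        · rw [hxf]; exact hgf
        · exact hg x (by simp [hx, hxf]))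
      (((F.erase f : Finset Ω) : Set Ω) ∪ ((F.image h : Finset Ω) : Set Ω))
      ((F.erase f).finite_toSet.union (F.image h).finite_toSet)
      (by
        rintro (h1 | h1)
        · simp at h1
        · exact hfn (by simpa using h1))
      Set.subset_union_left
      (by
        intro g hg
        have h1 : h⁻¹ * g * h ∈ H := by
          apply hF
          show ∀ x ∈ F, (h⁻¹ * g * h) x = x
          intro x hx
          have h3 : g (h x) = h x := hg _ (Or.inr (Finset.mem_coe.2
            (Finset.mem_image_of_mem h hx)))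
          show h⁻¹ (g (h x)) = x
          rw [h3]
          exact h.symm_apply_apply x
        have h2 : g = h * (h⁻¹ * g * h) * h⁻¹ := by group
        rw [h2]
        exact H.mul_mem (H.mul_mem hh h1) (H.inv_mem hh))
    have hlt : (F.erase f).card < F.card := Finset.card_erase_lt_of_mem hf
    have := hmin (F.erase f) (fun g hg => hstep g (fun x hx => hg x (Finset.mem_coe.1 hx)))
    omega
  intro h hh x
  constructor
  · intro hx
    have := hsub h⁻¹ (H.inv_mem hh) (h x) hx
    rwa [show h⁻¹ (h x) = x from h.symm_apply_apply x] at this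
  · exact hsub h hh x

/-- A subgroup containing the pointwise stabiliser of a finite set has countable index. -/
theorem countable_index [Countable Ω] (H : Subgroup (Ω ≃o Ω)) (F : Finset Ω)
    (hF : pointStab F ≤ H) : Cardinal.mk ((Ω ≃o Ω) ⧸ H) ≤ Cardinal.aleph0 := by
  rw [Cardinal.mk_le_aleph0_iff]
  have hinj : Function.Injective (fun (q : (Ω ≃o Ω) ⧸ H) (x : F) => q.out x.1) := by
    intro q q' h
    rw [← q.out_eq', ← q'.out_eq']
    refine Quotient.sound' ?_
    rw [QuotientGroup.leftRel_apply]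
    apply hF
    show ∀ x ∈ F, (q.out⁻¹ * q'.out) x = x
    intro x hx
    have h1 : q.out x = q'.out x := congrFun h ⟨x, hx⟩
    show q.out⁻¹ (q'.out x) = x
    rw [← h1]
    exact q.out.symm_apply_apply x
  exact hinj.countable

end aux

/-- **Strong small index property of the universal homogeneous poset.**  A subgroup of its
automorphism group has index less than the continuum if and only if it lies between the
pointwise and the setwise stabiliser of a finite set; this set is unique, and the index is then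
countable.  In particular a subgroup which has index less than the continuum and is transitive
on the points is the whole group. -/
theorem result (Ω : Type) [PartialOrder Ω] [Countable Ω]
    (huniv : ∀ (α : Type) [Finite α] [PartialOrder α], Nonempty (α ↪o Ω))
    (hom : ∀ (A B : Set Ω), A.Finite → ∀ f : A ≃o B, ∃ g : Ω ≃o Ω, ∀ a : A, g a.1 = (f a).1)
    (H : Subgroup (Ω ≃o Ω)) :
    (Cardinal.mk ((Ω ≃o Ω) ⧸ H) < Cardinal.continuum ↔
      ∃! F : Finset Ω, pointStab F ≤ H ∧ H ≤ setStab F) ∧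
    (Cardinal.mk ((Ω ≃o Ω) ⧸ H) < Cardinal.continuum →
      Cardinal.mk ((Ω ≃o Ω) ⧸ H) ≤ Cardinal.aleph0 ∧
      ((∀ x y : Ω, ∃ h ∈ H, h x = y) → H = ⊤)) := by
  classical
  have hΩ : Pool.Agent.RPoset.IsGen Ω := ⟨huniv, hom⟩
  have h : Pool.Agent.MP984e59.UH Ω := ⟨huniv, hom⟩
  have hsip : Cardinal.mk ((Ω ≃o Ω) ⧸ H) < Cardinal.continuum →
      ∃ F : Finset Ω, pointStab F ≤ H := by
    intro hH
    obtain ⟨F, hF⟩ := Pool.Agent.MP984e59.sip_of_pairs h
      (fun P hP => Pool.Agent.MP984e59.pairs h P hP) H hH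
    exact ⟨F, fun g hg => hF g hg⟩
  refine ⟨⟨fun hH => ?_, ?_⟩, fun hH => ⟨?_, fun htr => ?_⟩⟩
  · obtain ⟨F, hF1, hF2⟩ := exists_base hΩ H (hsip hH)
    exact ⟨F, ⟨hF1, hF2⟩, fun F' hF' => Finset.Subset.antisymm
      (unique_base hΩ H F F' hF1 hF'.2) (unique_base hΩ H F' F hF'.1 hF2)⟩
  · rintro ⟨F, ⟨hF, -⟩, -⟩
    exact (countable_index H F hF).trans_lt Cardinal.aleph0_lt_continuum
  · obtain ⟨F, hF⟩ := hsip hH
    exact countable_index H F hF
  · obtain ⟨F, hF⟩ := hsip hH
    exact Pool.Agent.RPoset.stab_top huniv hom H htr F (fun g hg => hF hg)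

end Pool.Agent.Results.MP_984e59_al.StrongSmallIndex
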